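import Pool.Agent.Odp3.Defs

/-!
# Good coordinates at a point
-/

open Pool.Agent.ODP

namespace Pool.Agent.Odp3

/-- `y_1, …, y_n` are good coordinates at the point `x`: they are algebraically independent, `B` is
finite over `ℂ[y_1, …, y_n]`, they vanish at `x`, and `(y_1, …, y_n)` is a reduction of the maximal
ideal of `B_x`. -/
structure IsCoord {n : ℕ} {B : Type} [CommRing B] [Algebra ℂ B] (y : Fin n → B) (x : Pt B) :
    Prop where
  finite : (MvPolynomial.aeval y : MvPolynomial (Fin n) ℂ →ₐ[ℂ] B).toRingHom.Finite
  indep : AlgebraicIndependent ℂ y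
  zero : proj y x = 0
  red : IsReductionAt (RingHom.ker x) y

end Pool.Agent.Odp3
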