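import Pool.Agent.Odp2.Defs

/-!
# Working data for a finite, not necessarily free, Noether normalization

`B` is a normal domain, finite over `ℂ[y_1, …, y_n]`, the `y_j` are algebraically independent.
The elements `e_i` of `B` are a basis of the fraction field over `ℂ(y)`, and `D b` is a
combination of the `e_i` for all `b ∈ B`.
-/

open scoped WithZero ENNReal NNReal
open Pool.Agent.ODP MvPolynomial

namespace Pool.Agent.Odp3

export Pool.Agent.Odp2 (Pt proj integ nbhd NearInt sq lct mult IsPrimaryAt nvol IsKltAt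
  IsRCanonicalAt nq bal cutf one)

/-! ### The working data -/

/-- `e` is a basis of the fraction field of `B` over `ℂ(y_1, …, y_n)`, `du i / D` is the dual
basis, and `tr` is the trace. -/
structure Germ (n d : ℕ) (B : Type) [CommRing B] [Algebra ℂ B] where
  y : Fin n → B
  fin : (aeval y : MvPolynomial (Fin n) ℂ →ₐ[ℂ] B).toRingHom.Finite
  inj : Function.Injective (aeval y : MvPolynomial (Fin n) ℂ →ₐ[ℂ] B)
  e : Fin d → B
  du : Fin d → B
  D : MvPolynomial (Fin n) ℂ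
  D_ne : D ≠ 0
  tr : B → MvPolynomial (Fin n) ℂ
  tr_add : ∀ b c, tr (b + c) = tr b + tr c
  tr_mul : ∀ p b, tr (aeval y p * b) = p * tr b
  tr_du : ∀ i j, tr (du i * e j) = if i = j then D else 0
  spec : ∀ b, aeval y D * b = ∑ i, aeval y (tr (du i * b)) * e i
  card : ∀ w, MvPolynomial.eval w D ≠ 0 → {χ : Pt B | proj y χ = w}.ncard = d
  tr_pt : ∀ w, MvPolynomial.eval w D ≠ 0 → ∀ S : Finset (Pt B), (∀ χ, χ ∈ S ↔ proj y χ = w) →
    ∀ b, ∑ χ ∈ S, χ b = MvPolynomial.eval w (tr b)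
  du_spec : ∀ w, MvPolynomial.eval w D ≠ 0 → ∀ χ χ' : Pt B, proj y χ = w → proj y χ' = w →
    (χ = χ' → ∑ i, χ (du i) * χ' (e i) = MvPolynomial.eval w D) ∧
    (χ ≠ χ' → ∑ i, χ (du i) * χ' (e i) = 0)

/-- The coordinates of `D b` in the basis `e`. -/
def Germ.cf {n d : ℕ} {B : Type} [CommRing B] [Algebra ℂ B] (G : Germ n d B) (b : B) (i : Fin d) :
    MvPolynomial (Fin n) ℂ := G.tr (G.du i * b)

/-- `u / D` is in the codifferent: `Tr (u b / D)` is a polynomial for all `b ∈ B`. -/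
def Germ.IsOm {n d : ℕ} {B : Type} [CommRing B] [Algebra ℂ B] (G : Germ n d B) (u : B) : Prop :=
  ∀ b, ∃ p, G.tr (u * b) = G.D * p

/-- `sg ∈ B` is idempotent modulo `(y)^m` and separates `x` from the other points over `0`. -/
structure IsSep {n d : ℕ} {B : Type} [CommRing B] [Algebra ℂ B] (G : Germ n d B) (x : Pt B)
    (m : ℕ) (sg : B) : Prop where
  x_y : proj G.y x = 0
  x_sg : x sg = 1
  idem : sg ^ 2 - sg ∈ Ideal.span (Set.range G.y) ^ m
  nil : ∀ b, x b = 0 → ∃ L : ℕ, b ^ L * sg ∈ Ideal.span (Set.range G.y)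

/-- The part near `x` of the preimage of the ball of radius `ρ` minus `{Q = 0}`. -/
def VV {n d : ℕ} {B : Type} [CommRing B] [Algebra ℂ B] (G : Germ n d B) (sg : B)
    (Q : (Fin n → ℂ) → ℂ) (ρ : ℝ) : Set (Pt B) :=
  {χ | nq (proj G.y χ) < ρ ^ 2 ∧ Q (proj G.y χ) ≠ 0 ∧ ‖χ sg - 1‖ < 1 / 2}

/-- `Q` is holomorphic on the ball, not identically zero, and it vanishes where `D` vanishes. -/
structure IsQ {n d : ℕ} {B : Type} [CommRing B] [Algebra ℂ B] (G : Germ n d B)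
    (Q : (Fin n → ℂ) → ℂ) (ρ : ℝ) : Prop where
  pos : 0 < ρ
  holo : DifferentiableOn ℂ Q (bal n ρ)
  ne : ∃ w ∈ bal n ρ, Q w ≠ 0
  D_ne : ∀ w ∈ bal n ρ, Q w ≠ 0 → MvPolynomial.eval w G.D ≠ 0

/-- The integral of `F` over `S` with respect to `|dy_1 ∧ … ∧ dy_n|²`. -/
noncomputable def sumI {n d : ℕ} {B : Type} [CommRing B] [Algebra ℂ B] (G : Germ n d B)
    (S : Set (Pt B)) (F : Pt B → ℝ≥0∞) : ℝ≥0∞ :=
  ∫⁻ w : Fin n → ℂ, ∑' χ : {χ : Pt B // χ ∈ S ∧ proj G.y χ = w}, F χ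

/-- The part near `x` of the preimage of the ball of radius `ρ`. -/
def UU {n d : ℕ} {B : Type} [CommRing B] [Algebra ℂ B] (G : Germ n d B) (sg : B)
    (ρ : ℝ) : Set (Pt B) :=
  {χ | nq (proj G.y χ) < ρ ^ 2 ∧ ‖χ sg - 1‖ < 1 / 2}

/-- `e` is the number of the sheets near `x`. -/
def IsNum {n d : ℕ} {B : Type} [CommRing B] [Algebra ℂ B] (G : Germ n d B) (sg : B) (e : ℕ) :
    Prop :=
  ∃ ρ₀ : ℝ, 0 < ρ₀ ∧ ∀ w : Fin n → ℂ, nq w < ρ₀ ^ 2 → MvPolynomial.eval w G.D ≠ 0 →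
    {χ : Pt B | proj G.y χ = w ∧ ‖χ sg - 1‖ < 1 / 2}.ncard = e

/-- `s` is a holomorphic section of `(y_1, …, y_n)` over the open set `Ω` with values in `V`. -/
structure IsSec {n d : ℕ} {B : Type} [CommRing B] [Algebra ℂ B] (G : Germ n d B) (V : Set (Pt B))
    (Ω : Set (Fin n → ℂ)) (s : (Fin n → ℂ) → Pt B) : Prop where
  isOpen : IsOpen Ω
  mem : ∀ w ∈ Ω, s w ∈ V
  proj : ∀ w ∈ Ω, proj G.y (s w) = w
  holo : ∀ b : B, DifferentiableOn ℂ (fun w => s w b) Ω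

/-- `Z` is holomorphic on `V`. -/
def HolV {n d : ℕ} {B : Type} [CommRing B] [Algebra ℂ B] (G : Germ n d B) (V : Set (Pt B))
    (Z : Pt B → ℂ) : Prop :=
  ∀ Ω s, IsSec G V Ω s → DifferentiableOn ℂ (fun w => Z (s w)) Ω

/-- `F` vanishes at the point `χ` to the weighted order at least `N`, where `y_j - χ(y_j)` has the
weight `a_j`. -/
def VanAt {n d : ℕ} {B : Type} [CommRing B] [Algebra ℂ B] (G : Germ n d B) (a : Fin n → ℕ)
    (N : ℕ) (χ : Pt B) (F : B) : Prop :=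
  ∃ t : B, χ t ≠ 0 ∧ t * F ∈ Ideal.span {b | ∃ m : Fin n → ℕ, N ≤ ∑ j, a j * m j ∧
    b = ∏ j, (G.y j - algebraMap ℂ B (χ (G.y j))) ^ m j}

/-- A sequence of pairs of distinct points in the fibres over `q ν → 0`, both tending to `x`;
`|D(q ν)|` is bounded below by a power of `|q ν|`. -/
structure Pts {n d : ℕ} {B : Type} [CommRing B] [Algebra ℂ B] (G : Germ n d B) (x : Pt B) where
  q : ℕ → Fin n → ℂ
  p : Fin 2 → ℕ → Pt B
  proj_p : ∀ i ν, proj G.y (p i ν) = q ν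
  D_ne : ∀ ν, MvPolynomial.eval (q ν) G.D ≠ 0
  ne : ∀ ν, p 0 ν ≠ p 1 ν
  tendsto_q : Filter.Tendsto q Filter.atTop (nhds 0)
  tendsto_p : ∀ i b, Filter.Tendsto (fun ν => p i ν b) Filter.atTop (nhds (x b))
  low : ∃ (K : ℕ) (c : ℝ), 0 < c ∧ ∀ ν, c * √(nq (q ν)) ^ K ≤ ‖MvPolynomial.eval (q ν) G.D‖

/-- `F ν → F'` in `B`, along a nonprincipal ultrafilter: they are combinations of finitely many
fixed elements of `B`, and the coefficients converge. -/
def TendsB {n d : ℕ} {B : Type} [CommRing B] [Algebra ℂ B] (_G : Germ n d B) (F : ℕ → B)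
    (F' : B) : Prop :=
  ∃ (k : ℕ) (g : Fin k → B) (c : ℕ → Fin k → ℂ) (c' : Fin k → ℂ),
    (∀ᶠ ν in (Filter.hyperfilter ℕ : Filter ℕ), F ν = ∑ i, algebraMap ℂ B (c ν i) * g i) ∧
    (∀ i, Filter.Tendsto (fun ν => c ν i) (Filter.hyperfilter ℕ : Filter ℕ) (nhds (c' i))) ∧
    F' = ∑ i, algebraMap ℂ B (c' i) * g i

/-- The limit `J_N` of the ideals of the functions vanishing to the weighted order `N` at the two
points `p 0 ν`, `p 1 ν`. -/
def JJ {n d : ℕ} {B : Type} [CommRing B] [Algebra ℂ B] {G : Germ n d B} {x : Pt B} (p : Pts G x)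
    (a : Fin n → ℕ) (N : ℕ) : Set B :=
  {F' | ∃ F : ℕ → B, (∀ᶠ ν in (Filter.hyperfilter ℕ : Filter ℕ), ∀ i, VanAt G a N (p.p i ν) (F ν)) ∧
    TendsB G F F'}

/-- The ideal `J_N` (it is equal to `JJ`, see `mem_JI`). -/
def JI {n d : ℕ} {B : Type} [CommRing B] [Algebra ℂ B] {G : Germ n d B} {x : Pt B} (p : Pts G x)
    (a : Fin n → ℕ) (N : ℕ) : Ideal B := Ideal.span (JJ p a N)

end Pool.Agent.Odp3
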